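import Mathlib
import Pool.Agent.H23.SubB

set_option autoImplicit false

open Topology Filter

namespace Pool.Agent.Results.MP_c09033_al.NotSemitop

universe u

/-- A continuous surjective homomorphism `f : G → H` is semitopological if `G` is (identified by a
topological embedding `ι` with) a normal subgroup of a topological group `G'` and `f` extends to
an open continuous homomorphism `G' → H`. -/
def Semitop {G H : Type} [Group G] [TopologicalSpace G] [Group H] [TopologicalSpace H]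
    (f : G →* H) : Prop :=
  Continuous f ∧ Function.Surjective f ∧
    ∃ (G' : Type u) (_ : Group G') (_ : TopologicalSpace G') (_ : IsTopologicalGroup G')
      (ι : G →* G') (f' : G' →* H), IsEmbedding ι ∧ ι.range.Normal ∧
      Continuous f' ∧ IsOpenMap f' ∧ f'.comp ι = f

theorem sq_lcm {m n : ℕ} (hm : Squarefree m) (hn : Squarefree n) : Squarefree (m.lcm n) := by
  rw [Nat.squarefree_iff_factorization_le_one (Nat.lcm_ne_zero hm.ne_zero hn.ne_zero),
    Nat.factorization_lcm hm.ne_zero hn.ne_zero]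
  intro p
  rw [Finsupp.sup_apply]
  exact max_le ((Nat.squarefree_iff_factorization_le_one hm.ne_zero).1 hm p)
    ((Nat.squarefree_iff_factorization_le_one hn.ne_zero).1 hn p)

def A : AddSubgroup ℚ where
  carrier := {x | Squarefree x.den}
  zero_mem' := by simp
  add_mem' := fun {a b} ha hb => (sq_lcm ha hb).squarefree_of_dvd (Rat.add_den_dvd_lcm a b)
  neg_mem' := fun {a} ha => by simpa using ha

theorem int_mul_mem {a b : ℚ} (ha : a ∈ A) (hb : b.den = 1) : a * b ∈ A := by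
  have := Rat.mul_den_dvd a b
  rw [hb, mul_one] at this
  exact Squarefree.squarefree_of_dvd this ha

theorem mem_of_int {b : ℚ} (hb : b.den = 1) : b ∈ A := by
  show Squarefree b.den
  rw [hb]; exact squarefree_one

@[ext] structure G : Type where
  a : A
  b : A
  c : ℚ

instance : Mul G := ⟨fun x y => ⟨x.a + y.a, x.b + y.b, x.c + y.c + x.a * y.b⟩⟩
instance : One G := ⟨⟨0, 0, 0⟩⟩
instance : Inv G := ⟨fun x => ⟨-x.a, -x.b, -x.c + x.a * x.b⟩⟩

@[simp] theorem mul_a (x y : G) : (x * y).a = x.a + y.a := rfl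
@[simp] theorem mul_b (x y : G) : (x * y).b = x.b + y.b := rfl
@[simp] theorem mul_c (x y : G) : (x * y).c = x.c + y.c + x.a * y.b := rfl
@[simp] theorem one_a : (1 : G).a = 0 := rfl
@[simp] theorem one_b : (1 : G).b = 0 := rfl
@[simp] theorem one_c : (1 : G).c = 0 := rfl
@[simp] theorem inv_a (x : G) : x⁻¹.a = -x.a := rfl
@[simp] theorem inv_b (x : G) : x⁻¹.b = -x.b := rfl
@[simp] theorem inv_c (x : G) : x⁻¹.c = -x.c + x.a * x.b := rfl

instance : Group G := Group.ofLeftAxioms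
  (fun x y z => by ext <;> simp <;> ring) (fun x => by ext <;> simp)
  (fun x => by ext <;> simp)

theorem pow_eq (x : G) (n : ℕ) : ((x ^ n).a : ℚ) = n * x.a ∧ ((x ^ n).b : ℚ) = n * x.b ∧
    (x ^ n).c = n * x.c + (n * (n - 1) / 2) * (x.a * x.b) := by
  induction n with
  | zero => simp
  | succ n ih =>
    obtain ⟨h1, h2, h3⟩ := ih
    rw [pow_succ]
    refine ⟨by simp [h1]; ring, by simp [h2]; ring, ?_⟩
    simp [h1, h3]; ring

theorem root {x y : G} {n : ℕ} (hn : n ≠ 0) (h : x ^ n = y ^ n) : x = y := by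
  obtain ⟨h1, h2, h3⟩ := pow_eq x n
  obtain ⟨k1, k2, k3⟩ := pow_eq y n
  have hn' : (n : ℚ) ≠ 0 := by exact_mod_cast hn
  rw [h] at h1 h2 h3
  have ea : (x.a : ℚ) = y.a := mul_left_cancel₀ hn' (h1.symm.trans k1)
  have eb : (x.b : ℚ) = y.b := mul_left_cancel₀ hn' (h2.symm.trans k2)
  refine G.ext (Subtype.ext ea) (Subtype.ext eb) (mul_left_cancel₀ hn' ?_)
  rw [ea, eb] at h3
  linarith

def X : G := ⟨⟨1, mem_of_int rfl⟩, 0, 0⟩
def Y : G := ⟨0, ⟨1, mem_of_int rfl⟩, 0⟩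

theorem rigid (α : G →* G) (hX : α X = X) (hY : α Y = Y) (g : G) : α g = g := by
  let S := α.eqLocus (MonoidHom.id G)
  have hr : ∀ (x : G) (n : ℕ), n ≠ 0 → x ^ n ∈ S → x ∈ S := fun x n hn h =>
    root hn ((map_pow α x n).symm.trans h)
  have line : ∀ (B : AddSubgroup ℚ) (l : B → G) (h1 : (1 : ℚ) ∈ B),
      (∀ s t, l (s + t) = l s * l t) → l ⟨1, h1⟩ ∈ S → ∀ s, l s ∈ S := by
    intro B l h1 hl hS s
    let φ : Multiplicative B →* G := MonoidHom.mk' (fun s => l s.toAdd) (fun s t => hl _ _)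
    refine hr _ s.1.den s.1.den_nz ?_
    have e1 : l s ^ s.1.den = φ (Multiplicative.ofAdd s ^ s.1.den) := (map_pow φ _ _).symm
    have e2 : (Multiplicative.ofAdd s ^ s.1.den : Multiplicative B) =
        Multiplicative.ofAdd (⟨1, h1⟩ : B) ^ s.1.num := by
      apply Multiplicative.toAdd.injective
      apply Subtype.ext
      simp [mul_comm, Rat.mul_den_eq_num]
    rw [e1, e2, map_zpow]
    exact S.zpow_mem hS _
  have hx : ∀ a : A, (⟨a, 0, 0⟩ : G) ∈ S :=
    line A (fun a => ⟨a, 0, 0⟩) (mem_of_int rfl) (fun s t => by ext <;> simp) hX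
  have hy : ∀ a : A, (⟨0, a, 0⟩ : G) ∈ S :=
    line A (fun a => ⟨0, a, 0⟩) (mem_of_int rfl) (fun s t => by ext <;> simp) hY
  have hz : ∀ c : (⊤ : AddSubgroup ℚ), (⟨0, 0, c⟩ : G) ∈ S :=
    line ⊤ (fun c => ⟨0, 0, c⟩) trivial (fun s t => by ext <;> simp) (by
      have : (⟨0, 0, 1⟩ : G) = X * Y * X⁻¹ * Y⁻¹ := by ext <;> simp [X, Y]
      show (⟨0, 0, 1⟩ : G) ∈ S
      rw [this]
      exact S.mul_mem (S.mul_mem (S.mul_mem hX hY) (S.inv_mem hX)) (S.inv_mem hY))
  have : g = ⟨0, 0, g.c⟩ * ⟨0, g.b, 0⟩ * ⟨g.a, 0, 0⟩ := by ext <;> simp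
  have h2 : g ∈ S := by
    rw [this]
    exact S.mul_mem (S.mul_mem (hz ⟨g.c, trivial⟩) (hy _)) (hx _)
  exact h2

theorem den_add {a b : ℚ} (ha : a.den = 1) (hb : b.den = 1) : (a + b).den = 1 := by
  have := Rat.add_den_dvd a b
  rw [ha, hb] at this
  exact Nat.dvd_one.1 this

def N : Subgroup G where
  carrier := {x | (x.a : ℚ).den = 1 ∧ (x.b : ℚ).den = 1 ∧ x.c ∈ A}
  one_mem' := by simp [A.zero_mem]
  mul_mem' := fun {x y} hx hy => ⟨den_add hx.1 hy.1, den_add hx.2.1 hy.2.1,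
    A.add_mem (A.add_mem hx.2.2 hy.2.2) (int_mul_mem x.a.2 hy.2.1)⟩
  inv_mem' := fun {x} hx => ⟨by simpa using hx.1, by simpa using hx.2.1,
    A.add_mem (A.neg_mem hx.2.2) (int_mul_mem x.a.2 hx.2.1)⟩

instance : N.Normal := ⟨fun x hx g => by
  refine ⟨by simpa using hx.1, by simpa using hx.2.1, ?_⟩
  have : (g * x * g⁻¹).c = x.c + (g.a * x.b - g.b * x.a) := by simp; ring
  rw [this]
  exact A.add_mem hx.2.2 (A.sub_mem (int_mul_mem g.a.2 hx.2.1) (int_mul_mem g.b.2 hx.1))⟩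

def V0 (n : ℕ) : Subgroup G where
  carrier := {x | (x.a : ℚ).den.Coprime n.factorial ∧ x.b = 0 ∧ x.c = 0}
  one_mem' := by simp
  mul_mem' := fun {x y} hx hy => ⟨Nat.Coprime.coprime_dvd_left (Rat.add_den_dvd _ _)
    (Nat.Coprime.mul_left hx.1 hy.1), by simp [hx.2.1, hy.2.1], by simp [hx.2.2, hy.2.2, hy.2.1]⟩
  inv_mem' := fun {x} hx => ⟨by simpa using hx.1, by simp [hx.2.1], by simp [hx.2.2, hx.2.1]⟩

abbrev K : Type := G ⧸ N

def V (n : ℕ) : Subgroup K := (V0 n).map (QuotientGroup.mk' N)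

theorem V_anti {m n : ℕ} (h : m ≤ n) : V n ≤ V m :=
  Subgroup.map_mono fun _ hx =>
    ⟨Nat.Coprime.coprime_dvd_right (Nat.factorial_dvd_factorial h) hx.1, hx.2⟩

theorem comm_iff (x y : G) : (x : K) * y = y * x ↔ (x.a * y.b - y.a * x.b : ℚ) ∈ A := by
  rw [← QuotientGroup.mk_mul, ← QuotientGroup.mk_mul, eq_comm, QuotientGroup.eq]
  have e : ((y * x)⁻¹ * (x * y)) = ⟨0, 0, x.a * y.b - y.a * x.b⟩ := by
    ext <;> simp <;> ring
  rw [e]
  exact ⟨fun h => h.2.2, fun h => ⟨rfl, rfl, h⟩⟩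

theorem cent (k : K) : ∃ n, ∀ v ∈ V n, v * k = k * v := by
  obtain ⟨g, rfl⟩ := QuotientGroup.mk_surjective k
  refine ⟨(g.b : ℚ).den, ?_⟩
  rintro _ ⟨x, hx, rfl⟩
  refine (comm_iff x g).2 ?_
  rw [hx.2.1]
  simp only [ZeroMemClass.coe_zero, mul_zero, sub_zero]
  have h1 : (x.a : ℚ).den.Coprime (g.b : ℚ).den :=
    Nat.Coprime.coprime_dvd_right (Nat.dvd_factorial (Rat.den_pos _) le_rfl) hx.1
  exact Squarefree.squarefree_of_dvd (Rat.mul_den_dvd _ _)
    ((Nat.squarefree_mul h1).2 ⟨x.a.2, g.b.2⟩)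

theorem noncent (n : ℕ) : ∃ v ∈ V n, ∃ k : K, v * k ≠ k * v := by
  obtain ⟨p, hp, hpp⟩ := Nat.exists_infinite_primes (n + 1)
  have hd : ((p : ℚ)⁻¹).den = p := Rat.inv_natCast_den_of_pos hpp.pos
  have hA : (p : ℚ)⁻¹ ∈ A := by
    show Squarefree _
    rw [hd]; exact hpp.squarefree
  refine ⟨((⟨⟨_, hA⟩, 0, 0⟩ : G) : K), ⟨_, ⟨?_, rfl, rfl⟩, rfl⟩, ((⟨0, ⟨_, hA⟩, 0⟩ : G) : K), ?_⟩
  · show ((p : ℚ)⁻¹).den.Coprime _
    rw [hd]
    exact (Nat.Prime.coprime_iff_not_dvd hpp).2 fun h => by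
      have := (hpp.dvd_factorial).1 h
      omega
  · rw [Ne, comm_iff]
    simp only [ZeroMemClass.coe_zero, mul_zero, sub_zero]
    intro h
    have h1 : Squarefree ((p : ℚ)⁻¹ * (p : ℚ)⁻¹).den := h
    rw [← mul_inv, ← Nat.cast_mul, Rat.inv_natCast_den_of_pos (Nat.mul_pos hpp.pos hpp.pos)] at h1
    exact hpp.not_isUnit (h1 p dvd_rfl)

theorem V_sep (k : K) (h : ∀ n, k ∈ V n) : k = 1 := by
  obtain ⟨x, hx, rfl⟩ := h 0
  obtain ⟨y, hy, e⟩ := h (x.a : ℚ).den
  have e1 : y⁻¹ * x ∈ N := QuotientGroup.eq.1 e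
  refine (QuotientGroup.eq_one_iff x).2 ⟨?_, by simp [hx.2.1], by simp [hx.2.2, A.zero_mem]⟩
  have e2 : (x.a : ℚ) = y.a + ((y⁻¹ * x).a : ℚ) := by simp
  have e3 := Rat.add_den_dvd (y.a : ℚ) ((y⁻¹ * x).a : ℚ)
  rw [← e2, e1.1, mul_one] at e3
  have e4 : (x.a : ℚ).den.Coprime (x.a : ℚ).den :=
    Nat.Coprime.coprime_dvd_right (Nat.dvd_factorial (Rat.den_pos _) le_rfl)
      (Nat.Coprime.coprime_dvd_left e3 hy.1)
  simpa using e4

/-- copy of `K` carrying the coarser topology -/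
def H : Type := K

noncomputable instance : Group H := inferInstanceAs (Group K)

def D (n : ℕ) : Subgroup (K × K) := (V n).map ((MonoidHom.id K).prod (MonoidHom.id K))

/-- There are Hausdorff topological groups `G`, `K`, `H`, an open continuous surjective
homomorphism `f₁ : G → K` and a semitopological isomorphism `f₂ : K → H` such that `f₂ ∘ f₁` is
not semitopological. -/
theorem result :
    ∃ (G K H : Type) (_ : Group G) (_ : TopologicalSpace G) (_ : Group K) (_ : TopologicalSpace K)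
      (_ : Group H) (_ : TopologicalSpace H) (f₁ : G →* K) (f₂ : K →* H),
      IsTopologicalGroup G ∧ IsTopologicalGroup K ∧ IsTopologicalGroup H ∧
      T2Space G ∧ T2Space K ∧ T2Space H ∧
      Continuous f₁ ∧ Function.Surjective f₁ ∧ IsOpenMap f₁ ∧
      Function.Bijective f₂ ∧ Semitop.{0} f₂ ∧ ¬ Semitop.{u} (f₂.comp f₁) := by
  obtain ⟨tH, gH, nH⟩ : ∃ t : TopologicalSpace H, @IsTopologicalGroup H t _ ∧
      ∀ U, U ∈ @nhds H t 1 ↔ ∃ i, (V i : Set K) ⊆ U := Pool.Agent.H23.SubB.sb (G := K) V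
    (fun i j => ⟨i + j, V_anti (by omega), V_anti (by omega)⟩)
    (fun g i => by
      obtain ⟨n, hn⟩ := cent g
      refine ⟨n + i, fun x hx => ?_⟩
      have : g * x * g⁻¹ = x := by
        rw [mul_inv_eq_iff_eq_mul]; exact (hn x (V_anti (by omega) hx)).symm
      rw [this]; exact V_anti (by omega) hx)
  obtain ⟨tD, gD, nD⟩ := Pool.Agent.H23.SubB.sb D
    (fun i j => ⟨i + j, Subgroup.map_mono (V_anti (by omega)),
      Subgroup.map_mono (V_anti (by omega))⟩)
    (fun g i => by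
      obtain ⟨n, hn⟩ := cent g.1
      obtain ⟨m, hm⟩ := cent g.2
      refine ⟨n + m + i, ?_⟩
      rintro _ ⟨x, hx, rfl⟩
      refine ⟨x, V_anti (by omega) hx, ?_⟩
      rw [eq_mul_inv_iff_mul_eq]
      exact Prod.ext (hn x (V_anti (by omega) hx)) (hm x (V_anti (by omega) hx)))
  letI tG : TopologicalSpace G := ⊥
  haveI : DiscreteTopology G := ⟨rfl⟩
  letI tK : TopologicalSpace K := ⊥
  haveI : DiscreteTopology K := ⟨rfl⟩
  let f₂ : K →* H := MonoidHom.id K
  refine ⟨G, K, H, inferInstance, tG, inferInstance, tK, inferInstance, tH, QuotientGroup.mk' N, f₂,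
    inferInstance, inferInstance, gH, inferInstance, inferInstance, ?_,
    continuous_of_discreteTopology, QuotientGroup.mk'_surjective N, fun _ _ => isOpen_discrete _,
    Function.bijective_id, ⟨continuous_of_discreteTopology, Function.surjective_id,
      K × K, inferInstance, tD, gD, MonoidHom.inl K K, f₂.comp (MonoidHom.fst K K), ?_, ?_, ?_, ?_,
      rfl⟩, ?_⟩
  · refine IsTopologicalGroup.t2Space_of_one_sep fun x hx => ?_
    by_contra h
    push Not at h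
    exact hx (V_sep x fun n => h _ ((nH _).2 ⟨n, subset_rfl⟩))
  · letI := tD
    refine ⟨IsTopologicalGroup.isInducing_iff_nhds_one.2 ?_, fun a b h => congrArg Prod.fst h⟩
    rw [nhds_discrete]
    apply le_antisymm
    · rw [← tendsto_iff_comap]
      exact (map_one (MonoidHom.inl K K)) ▸ tendsto_pure_nhds (MonoidHom.inl K K) 1
    · rw [le_pure_iff]
      refine ⟨D 0, (nD _).2 ⟨0, subset_rfl⟩, ?_⟩
      rintro x ⟨y, -, hy⟩
      have h1 : y = x := congrArg Prod.fst hy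
      have h2 : y = 1 := congrArg Prod.snd hy
      exact h1 ▸ h2
  · refine ⟨?_⟩
    rintro _ ⟨x, rfl⟩ g
    exact ⟨g.1 * x * g.1⁻¹, Prod.ext rfl (by simp)⟩
  · letI := tD
    apply continuous_of_continuousAt_one
    intro U hU
    rw [map_one] at hU
    obtain ⟨n, hn⟩ := (nH U).1 hU
    refine (nD _).2 ⟨n, ?_⟩
    rintro _ ⟨x, hx, rfl⟩
    exact hn hx
  · letI := tD
    rw [IsTopologicalGroup.isOpenMap_iff_nhds_one]
    intro U hU
    obtain ⟨n, hn⟩ := (nD _).1 hU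
    refine (nH _).2 ⟨n, fun x hx => ?_⟩
    exact hn (a := (x, x)) ⟨x, hx, rfl⟩
  · rintro ⟨-, -, G', _, _, _, ι, f', hι, hN, -, ho, hf⟩
    have h1 : ({1} : Set G) ∈ 𝓝 (1 : G) := by simp
    rw [hι.isInducing.nhds_eq_comap, map_one] at h1
    obtain ⟨W, hW, hW'⟩ := h1
    have cm : ∀ g : G, ∀ᶠ v in 𝓝 (1 : G'), v * ι g * v⁻¹ = ι g := by
      intro g
      have hc : Continuous fun v : G' => v * ι g * v⁻¹ * (ι g)⁻¹ := by fun_prop
      have := hc.continuousAt (x := 1) (show W ∈ _ by simpa using hW)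
      filter_upwards [this] with v hv
      obtain ⟨y, hy⟩ := ι.range.mul_mem (hN.conj_mem (ι g) ⟨g, rfl⟩ v) (ι.range.inv_mem ⟨g, rfl⟩)
      have h2 : y ∈ ι ⁻¹' W := by
        show ι y ∈ W
        rw [hy]; exact hv
      have h3 : y = 1 := hW' h2
      rw [h3, map_one] at hy
      exact mul_inv_eq_one.1 hy.symm
    have h2 := ho.image_mem_nhds ((cm X).and (cm Y))
    rw [map_one] at h2
    obtain ⟨n, hn⟩ := (nH _).1 h2
    obtain ⟨v, hv, k, hk⟩ := noncent n
    obtain ⟨w, ⟨hX, hY⟩, rfl⟩ := hn hv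
    have hex : ∀ g : G, ∃ y, ι y = w * ι g * w⁻¹ := fun g => hN.conj_mem (ι g) ⟨g, rfl⟩ w
    choose α hα using hex
    have hr := rigid (MonoidHom.mk' α fun a b => hι.injective (by
      rw [map_mul, hα, hα, hα, map_mul]; group)) (hι.injective ((hα X).trans hX))
      (hι.injective ((hα Y).trans hY))
    obtain ⟨g, rfl⟩ := QuotientGroup.mk_surjective k
    apply hk
    have e1 : ι g = w * ι g * w⁻¹ := (congrArg ι (hr g)).symm.trans (hα g)
    have e2 := congrArg f' (eq_mul_inv_iff_mul_eq.1 e1)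
    have e3 : f' (ι g) = (g : K) := DFunLike.congr_fun hf g
    rw [map_mul, map_mul, e3] at e2
    exact e2.symm

end Pool.Agent.Results.MP_c09033_al.NotSemitop
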